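import Mathlib

/-!
# The algebra `A` with `U ^ n = 0` for the Lie elements `U`: `A ^ (2 n - 2)` is never zero

Let `K` be a field, `K⟨X, Y⟩⁺` the free associative algebra without unit, `L₀` the Lie subalgebra
generated by `X, Y`, and `I` the two-sided ideal generated by all `U ^ n`, `U ∈ L₀`. If `(n - 1)!`
is not zero in `K` then `X ^ (n - 1) * Y ^ (n - 1)` is not in `I`. Hence `A ^ (2 n - 2) ≠ 0` for
`A = K⟨X, Y⟩⁺ / I`, for all `n ≥ 2` and all fields of characteristic `0` or `p ≥ n`.
-/

namespace Pool.Agent.Results.MP_776ebc_al.NeverNilpotent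

/-- The free associative algebra without unit on two variables `X` and `Y`: linear combinations of
nonempty words in two letters. -/
abbrev FreeAlg (K : Type) [Field K] : Type := MonoidAlgebra K (FreeSemigroup (Fin 2))

/-- The variable `X` (for `i = 0`) or `Y` (for `i = 1`). -/
noncomputable def var (K : Type) [Field K] (i : Fin 2) : FreeAlg K :=
  MonoidAlgebra.single (FreeSemigroup.of i) 1

/-- The elements of the Lie subalgebra generated by `X` and `Y`: the smallest linear subspace which
contains `X` and `Y` and is closed under `S T - T S`. -/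
inductive LieElement (K : Type) [Field K] : FreeAlg K → Prop
  | var (i : Fin 2) : LieElement K (var K i)
  | zero : LieElement K 0
  | add {s t : FreeAlg K} : LieElement K s → LieElement K t → LieElement K (s + t)
  | smul (c : K) {s : FreeAlg K} : LieElement K s → LieElement K (c • s)
  | bracket {s t : FreeAlg K} : LieElement K s → LieElement K t → LieElement K (s * t - t * s)

/-- The product `a 0 * a 1 * ... * a k` of `k + 1` elements. -/
def prodUpTo {R : Type} [Mul R] (a : ℕ → R) : ℕ → R
  | 0 => a 0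
  | k + 1 => prodUpTo a k * a (k + 1)

/-- The two-sided ideal (closed under addition, scalars, left and right multiplication) generated
by the `n`-th powers `U ^ n` of all Lie elements `U`; for `n = m + 1` the power is the product of
`m + 1` factors `U`. -/
inductive InIdeal (K : Type) [Field K] (m : ℕ) : FreeAlg K → Prop
  | power {u : FreeAlg K} : LieElement K u → InIdeal K m (prodUpTo (fun _ => u) m)
  | zero : InIdeal K m 0
  | add {s t : FreeAlg K} : InIdeal K m s → InIdeal K m t → InIdeal K m (s + t)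
  | smul (c : K) {s : FreeAlg K} : InIdeal K m s → InIdeal K m (c • s)
  | mul_left (a : FreeAlg K) {s : FreeAlg K} : InIdeal K m s → InIdeal K m (a * s)
  | mul_right (a : FreeAlg K) {s : FreeAlg K} : InIdeal K m s → InIdeal K m (s * a)

/-- `X ^ (m + 1)` and so on, as a product in the algebra without unit. -/
theorem prodUpTo_const {R : Type} [Monoid R] (u : R) (k : ℕ) :
    prodUpTo (fun _ => u) k = u ^ (k + 1) := by
  induction k with
  | zero => simp [prodUpTo]
  | succ k ih => rw [prodUpTo, ih, pow_succ u (k + 1)]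


section Model

variable {K : Type} [Field K] {B : Type} [Ring B] [Algebra K B]

/-- Left multiplication by `a x + b y + c x y` on the exterior algebra with basis
`1, x, y, x y`. -/
def mat (a b c : K) : Matrix (Fin 4) (Fin 4) K :=
  !![0, 0, 0, 0; a, 0, 0, 0; b, 0, 0, 0; c, -b, a, 0]

theorem mat_mul (a b c a' b' c' : K) :
    mat a b c * mat a' b' c' = mat 0 0 (a * b' - b * a') := by
  ext i j
  fin_cases i <;> fin_cases j <;> simp [mat, Matrix.mul_apply, Fin.sum_univ_four]
  ring

theorem mat_add (a b c a' b' c' : K) :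
    mat a b c + mat a' b' c' = mat (a + a') (b + b') (c + c') := by
  ext i j
  fin_cases i <;> fin_cases j <;> simp [mat]
  ring

theorem mat_sub (a b c a' b' c' : K) :
    mat a b c - mat a' b' c' = mat (a - a') (b - b') (c - c') := by
  ext i j
  fin_cases i <;> fin_cases j <;> simp [mat]
  ring

theorem mat_smul (r a b c : K) : r • mat a b c = mat (r * a) (r * b) (r * c) := by
  ext i j
  fin_cases i <;> fin_cases j <;> simp [mat]

theorem mat_zero : mat (0 : K) 0 0 = 0 := by
  ext i j
  fin_cases i <;> fin_cases j <;> simp [mat]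

/-- A matrix over `K` as a matrix over `B`. -/
def up (B : Type) [Ring B] [Algebra K B] (M : Matrix (Fin 4) (Fin 4) K) :
    Matrix (Fin 4) (Fin 4) B :=
  M.map (algebraMap K B)

theorem up_mul (M N : Matrix (Fin 4) (Fin 4) K) : up B (M * N) = up B M * up B N := by
  simp [up, Matrix.map_mul]

theorem up_add (M N : Matrix (Fin 4) (Fin 4) K) : up B (M + N) = up B M + up B N := by
  ext i j; simp [up]

theorem up_sub (M N : Matrix (Fin 4) (Fin 4) K) : up B (M - N) = up B M - up B N := by
  ext i j; simp [up]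

theorem up_zero : up B (0 : Matrix (Fin 4) (Fin 4) K) = 0 := by
  ext i j; simp [up]

theorem up_smul (r : K) (M : Matrix (Fin 4) (Fin 4) K) : up B (r • M) = r • up B M := by
  ext i j
  change algebraMap K B (r * M i j) = r • algebraMap K B (M i j)
  rw [map_mul, Algebra.smul_def]

theorem comm_up (b : B) (M : Matrix (Fin 4) (Fin 4) K) :
    Commute (Matrix.scalar (Fin 4) b) (up B M) := by
  ext i j
  simp [up, Matrix.scalar_apply, Matrix.diagonal_mul, Matrix.mul_diagonal, Algebra.commutes]

theorem scalar_smul (r : K) (b : B) :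
    Matrix.scalar (Fin 4) (r • b) = r • Matrix.scalar (Fin 4) b := by
  ext i j
  by_cases h : i = j <;> simp [Matrix.scalar_apply, Matrix.diagonal, h]

theorem add_pow_aux {R : Type} [Ring R] {s v : R} (h : Commute s v) (hv : v * v = 0) (k : ℕ) :
    (s + v) ^ (k + 1) = s ^ (k + 1) + ((k + 1 : ℕ) : R) * (s ^ k * v) := by
  induction k with
  | zero => simp
  | succ k ih =>
    have h1 : s ^ k * v * s = s ^ (k + 1) * v := by
      rw [mul_assoc, ← h.eq, ← mul_assoc, pow_succ]
    have h2 : s ^ k * v * v = 0 := by rw [mul_assoc, hv, mul_zero]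
    rw [pow_succ, ih, add_mul, mul_add, mul_add, mul_assoc _ (s ^ k * v) s, h1,
      mul_assoc _ (s ^ k * v) v, h2, mul_zero, add_zero, ← pow_succ]
    have h3 : (((k + 1 + 1 : ℕ) : ℕ) : R) = ((k + 1 : ℕ) : R) + 1 := Nat.cast_succ _
    rw [h3, add_mul, one_mul]
    abel

/-- The subspace of the next model. -/
def nextL (L : Submodule K B) : Submodule K (Matrix (Fin 4) (Fin 4) B) where
  carrier := {s | ∃ u ∈ L, ∃ a b c : K, s = Matrix.scalar (Fin 4) u + up B (mat a b c)}
  add_mem' := by
    rintro _ _ ⟨u, hu, a, b, c, rfl⟩ ⟨u', hu', a', b', c', rfl⟩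
    refine ⟨u + u', L.add_mem hu hu', a + a', b + b', c + c', ?_⟩
    rw [← mat_add, up_add, map_add]
    abel
  zero_mem' := ⟨0, L.zero_mem, 0, 0, 0, by rw [mat_zero, up_zero, map_zero, add_zero]⟩
  smul_mem' := by
    rintro r _ ⟨u, hu, a, b, c, rfl⟩
    refine ⟨r • u, L.smul_mem r hu, r * a, r * b, r * c, ?_⟩
    rw [← mat_smul, up_smul, scalar_smul, smul_add]

end Model

theorem exists_model (K : Type) [Field K] : ∀ m : ℕ, ((m.factorial : ℕ) : K) ≠ 0 →
    ∃ (B : Type) (_ : Ring B) (_ : Algebra K B) (x y : B) (L : Submodule K B),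
      x ∈ L ∧ y ∈ L ∧ (∀ s ∈ L, ∀ t ∈ L, s * t - t * s ∈ L) ∧ (∀ u ∈ L, u ^ (m + 1) = 0) ∧
      x ^ m * y ^ m ≠ 0 := by
  intro m
  induction m with
  | zero =>
    intro _
    refine ⟨K, inferInstance, inferInstance, 0, 0, ⊥, Submodule.zero_mem _,
      Submodule.zero_mem _, ?_, ?_, by simp⟩
    · intro s hs t ht
      rw [Submodule.mem_bot] at hs ht
      simp [hs, ht]
    · intro u hu
      rw [Submodule.mem_bot] at hu
      simp [hu]
  | succ m ih =>
    intro hm
    have hf : ((m + 1).factorial : K) = ((m + 1 : ℕ) : K) * (m.factorial : K) := by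
      rw [Nat.factorial_succ]; push_cast; ring
    rw [hf] at hm
    have hm1 : ((m + 1 : ℕ) : K) ≠ 0 := left_ne_zero_of_mul hm
    obtain ⟨B, _, _, x, y, L, hx, hy, hL, hp, hne⟩ := ih (right_ne_zero_of_mul hm)
    have hV : ∀ a b c a' b' c' : K, up B (mat a b c) * up B (mat a' b' c') =
        up B (mat 0 0 (a * b' - b * a')) := fun a b c a' b' c' => by
      rw [← up_mul, mat_mul]
    have hV0 : ∀ a b c : K, up B (mat a b c) * up B (mat a b c) = 0 := fun a b c => by
      rw [hV, mul_comm b a, sub_self, mat_zero, up_zero]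
    refine ⟨Matrix (Fin 4) (Fin 4) B, inferInstance, inferInstance,
      Matrix.scalar (Fin 4) x + up B (mat 1 0 0), Matrix.scalar (Fin 4) y + up B (mat 0 1 0),
      nextL L, ⟨x, hx, 1, 0, 0, rfl⟩, ⟨y, hy, 0, 1, 0, rfl⟩, ?_, ?_, ?_⟩
    · rintro _ ⟨u, hu, a, b, c, rfl⟩ _ ⟨u', hu', a', b', c', rfl⟩
      refine ⟨u * u' - u' * u, hL u hu u' hu', 0, 0, (a * b' - b * a') - (a' * b - b' * a), ?_⟩
      have h1 := (comm_up u (mat a' b' c')).eq
      have h2 := (comm_up u' (mat a b c)).eq
      have h3 : mat (0 : K) 0 ((a * b' - b * a') - (a' * b - b' * a)) =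
          mat 0 0 (a * b' - b * a') - mat 0 0 (a' * b - b' * a) := by
        rw [mat_sub, sub_zero]
      rw [h3, up_sub, ← hV a b c a' b' c', ← hV a' b' c' a b c, map_sub, map_mul, map_mul,
        add_mul, mul_add, mul_add, add_mul, mul_add, mul_add, h1, h2]
      abel
    · rintro _ ⟨u, hu, a, b, c, rfl⟩
      rw [add_pow_aux (comm_up u _) (hV0 a b c), pow_succ, ← map_pow, hp u hu]
      simp
    · have hXm : x ^ (m + 1) = 0 := hp x hx
      have hYm : y ^ (m + 1) = 0 := hp y hy
      rw [add_pow_aux (comm_up x _) (hV0 1 0 0), add_pow_aux (comm_up y _) (hV0 0 1 0),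
        ← map_pow, ← map_pow, ← map_pow, ← map_pow, hXm, hYm, map_zero, zero_add, zero_add]
      intro h0
      have h2 : Matrix.scalar (Fin 4) (x ^ m) * up B (mat (1 : K) 0 0) *
          (Matrix.scalar (Fin 4) (y ^ m) * up B (mat (0 : K) 1 0)) =
          Matrix.scalar (Fin 4) (x ^ m * y ^ m) * up B (mat (0 : K) 0 1) := by
        have h3 := (comm_up (y ^ m) (mat (1 : K) 0 0)).eq
        have h4 : up B (mat (1 : K) 0 0) * up B (mat (0 : K) 1 0) = up B (mat (0 : K) 0 1) := by
          rw [hV]; norm_num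
        rw [mul_assoc, ← mul_assoc (up B (mat (1 : K) 0 0)), ← h3,
          mul_assoc (Matrix.scalar (Fin 4) (y ^ m)), h4, ← mul_assoc, ← map_mul]
      have h1 : ((m + 1 : ℕ) : Matrix (Fin 4) (Fin 4) B) *
            (Matrix.scalar (Fin 4) (x ^ m) * up B (mat (1 : K) 0 0)) *
          (((m + 1 : ℕ) : Matrix (Fin 4) (Fin 4) B) *
            (Matrix.scalar (Fin 4) (y ^ m) * up B (mat (0 : K) 1 0))) =
          ((m + 1 : ℕ) : Matrix (Fin 4) (Fin 4) B) * (((m + 1 : ℕ) : Matrix (Fin 4) (Fin 4) B) *
            (Matrix.scalar (Fin 4) (x ^ m * y ^ m) * up B (mat (0 : K) 0 1))) := by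
        rw [← h2]
        rw [mul_assoc, ← mul_assoc (Matrix.scalar (Fin 4) (x ^ m) * up B (mat (1 : K) 0 0)),
          ← (Nat.cast_commute (m + 1)
            (Matrix.scalar (Fin 4) (x ^ m) * up B (mat (1 : K) 0 0))).eq, mul_assoc]
      rw [h1] at h0
      have h5 := congrFun (congrFun h0 3) 0
      have h6 : (((m + 1 : ℕ) : Matrix (Fin 4) (Fin 4) B)) =
          Matrix.scalar (Fin 4) ((m + 1 : ℕ) : B) := by
        rw [map_natCast]
      rw [h6, ← mul_assoc, ← map_mul, ← mul_assoc, ← map_mul] at h5
      have h7 : (Matrix.scalar (Fin 4) (((m + 1 : ℕ) : B) * ((m + 1 : ℕ) : B) * (x ^ m * y ^ m)) *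
          up B (mat (0 : K) 0 1)) 3 0 = ((m + 1 : ℕ) : B) * ((m + 1 : ℕ) : B) *
            (x ^ m * y ^ m) := by
        simp [Matrix.scalar_apply, Matrix.diagonal_mul, up, mat]
      rw [h7] at h5
      have h8 : ((m + 1 : ℕ) : B) = algebraMap K B ((m + 1 : ℕ) : K) := by
        rw [map_natCast]
      have h9 : ((((m + 1 : ℕ) : K) * ((m + 1 : ℕ) : K)) • (x ^ m * y ^ m) : B) = 0 := by
        rw [Algebra.smul_def, map_mul, ← h8]
        exact h5
      rcases smul_eq_zero.1 h9 with h10 | h10
      · exact mul_ne_zero hm1 hm1 h10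
      · exact hne h10

theorem prodUpTo_split {B : Type} [Monoid B] (x y : B) (m : ℕ) :
    ∀ k : ℕ, m ≤ k + 1 → 1 ≤ m →
      prodUpTo (fun j => if j < m then x else y) k = x ^ m * y ^ (k + 1 - m) := by
  have h0 : ∀ k : ℕ, k < m → prodUpTo (fun j => if j < m then x else y) k = x ^ (k + 1) := by
    intro k
    induction k with
    | zero => intro h; simp [prodUpTo, h]
    | succ k ih => intro h; rw [prodUpTo, ih (by omega), if_pos h, ← pow_succ]
  intro k hk hm
  induction k with
  | zero =>
    have h1 : m = 1 := by omega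
    subst h1
    simp [prodUpTo]
  | succ k ih =>
    rcases Nat.lt_or_ge (k + 1) m with h | h
    · have h1 : m = k + 1 + 1 := by omega
      rw [h0 (k + 1) h, h1]
      simp
    · rw [prodUpTo, ih h, if_neg (by omega), mul_assoc, ← pow_succ]
      congr 2
      omega

/-- Let `K` be a field and `n ≥ 2` such that `(n - 1)!` is not zero in `K` (for instance
characteristic `0` or `p ≥ n`). Let `A` be the free associative algebra without unit on `X, Y`
modulo the ideal generated by all `U ^ n`, `U` in the Lie subalgebra generated by `X, Y`. Then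
`A ^ (2 n - 2) ≠ 0`: the product `X ^ (n - 1) * Y ^ (n - 1)` of `2 n - 2` factors is not zero in
`A`. -/
theorem result (n : ℕ) (hn : 2 ≤ n) (K : Type) [Field K] (hK : (((n - 1).factorial : ℕ) : K) ≠ 0) :
    ¬ InIdeal K (n - 1) (prodUpTo (fun j => if j < n - 1 then var K 0 else var K 1)
      (2 * n - 2 - 1)) := by
  obtain ⟨B, _, _, x, y, L, hx, hy, hL, hp, hne⟩ := exists_model K (n - 1) hK
  set f : FreeAlg K →ₙₐ[K] B :=
    MonoidAlgebra.liftMagma K (FreeSemigroup.lift (fun i : Fin 2 => if i = 0 then x else y))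
    with hf
  have hfv : ∀ i : Fin 2, f (var K i) = if i = 0 then x else y := by
    intro i
    simp [hf, var, MonoidAlgebra.liftMagma_apply_apply]
  have h1 : ∀ s, LieElement K s → f s ∈ L := by
    intro s hs
    induction hs with
    | var i =>
      rw [hfv]
      split_ifs
      · exact hx
      · exact hy
    | zero => rw [map_zero]; exact L.zero_mem
    | add _ _ h1 h2 => rw [map_add]; exact L.add_mem h1 h2
    | smul c _ h1 => rw [map_smul]; exact L.smul_mem c h1
    | bracket _ _ h1 h2 => rw [map_sub, map_mul, map_mul]; exact hL _ h1 _ h2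
  have hprod : ∀ (a : ℕ → FreeAlg K) (k : ℕ), f (prodUpTo a k) = prodUpTo (fun i => f (a i)) k := by
    intro a k
    induction k with
    | zero => rfl
    | succ k ih => rw [prodUpTo, prodUpTo, map_mul, ih]
  have h2 : ∀ s, InIdeal K (n - 1) s → f s = 0 := by
    intro s hs
    induction hs with
    | power hu => rw [hprod, prodUpTo_const, hp _ (h1 _ hu)]
    | zero => rw [map_zero]
    | add _ _ h1 h2 => rw [map_add, h1, h2, add_zero]
    | smul c _ h1 => rw [map_smul, h1, smul_zero]
    | mul_left a _ h1 => rw [map_mul, h1, mul_zero]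
    | mul_right a _ h1 => rw [map_mul, h1, zero_mul]
  intro h
  have h3 := h2 _ h
  rw [hprod] at h3
  have h4 : (fun i => f (if i < n - 1 then var K 0 else var K 1)) =
      fun i => if i < n - 1 then x else y := by
    funext i
    split_ifs
    · rw [hfv]; simp
    · rw [hfv]; simp
  rw [h4, prodUpTo_split x y (n - 1) (2 * n - 2 - 1) (by omega) (by omega)] at h3
  have h5 : 2 * n - 2 - 1 + 1 - (n - 1) = n - 1 := by omega
  rw [h5] at h3
  exact hne h3

end Pool.Agent.Results.MP_776ebc_al.NeverNilpotent
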